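import Pool.Agent.Lib.MP_2dbb30_al.Main

/-!
From a virtual endomorphism with trivial core to a faithful self-similar action on words, and
the fact that torsion does not accumulate at the identity of a `p`-adic Lie group.
-/

set_option autoImplicit false

open Filter Topology
open scoped Manifold ContDiff

namespace Pool.Agent.Lib.MP_2dbb30_al

section Action

variable {L : Type} [Group L] {d : ℕ} (H : Subgroup L) (f : H →* L) (e : Fin d ≃ L ⧸ H)

/-- the action on letters -/
noncomputable def letter (g : L) (x : Fin d) : Fin d := e.symm (g • e x)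

lemma coc_mem (g : L) (x : Fin d) :
    ((e (letter H e g x)).out)⁻¹ * (g * (e x).out) ∈ H := by
  rw [← QuotientGroup.eq, QuotientGroup.out_eq', letter, Equiv.apply_symm_apply]
  conv_lhs => rw [← QuotientGroup.out_eq' (e x)]
  rfl

/-- the cocycle -/
noncomputable def coc (g : L) (x : Fin d) : H :=
  ⟨((e (letter H e g x)).out)⁻¹ * (g * (e x).out), coc_mem H e g x⟩

lemma letter_one (x : Fin d) : letter H e 1 x = x := by simp [letter]

lemma letter_mul (g h : L) (x : Fin d) :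
    letter H e (g * h) x = letter H e g (letter H e h x) := by
  simp [letter, mul_smul]

lemma coc_one (x : Fin d) : coc H e 1 x = 1 := by
  apply Subtype.ext
  simp [coc, letter_one]

lemma coc_mul (g h : L) (x : Fin d) :
    coc H e (g * h) x = coc H e g (letter H e h x) * coc H e h x := by
  apply Subtype.ext
  simp only [coc, Subgroup.coe_mul, letter_mul]
  group

/-- the action on words -/
noncomputable def act : List (Fin d) → L → List (Fin d)
  | [], _ => []
  | x :: w, g => letter H e g x :: act w (f (coc H e g x))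

lemma act_one (w : List (Fin d)) : act H f e w 1 = w := by
  induction w with
  | nil => rfl
  | cons x w ih => simp [act, letter_one, coc_one, ih]

lemma act_mul (w : List (Fin d)) (g h : L) :
    act H f e w (g * h) = act H f e (act H f e w h) g := by
  induction w generalizing g h with
  | nil => rfl
  | cons x w ih => simp [act, letter_mul, coc_mul, ih]

lemma act_append (w : List (Fin d)) (g : L) (x : Fin d) :
    ∃ y, act H f e (w ++ [x]) g = act H f e w g ++ [y] := by
  induction w generalizing g with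
  | nil => exact ⟨letter H e g x, rfl⟩
  | cons z w ih =>
    obtain ⟨y, hy⟩ := ih (f (coc H e g z))
    exact ⟨y, by simp [act, hy]⟩

/-- the action on words as a homomorphism -/
noncomputable def rho : L →* Equiv.Perm (List (Fin d)) where
  toFun g :=
    { toFun := fun w => act H f e w g
      invFun := fun w => act H f e w g⁻¹
      left_inv := fun w => by simp only []; rw [← act_mul, inv_mul_cancel, act_one]
      right_inv := fun w => by simp only []; rw [← act_mul, mul_inv_cancel, act_one] }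
  map_one' := by ext1 w; exact act_one H f e w
  map_mul' g h := by ext1 w; exact act_mul H f e w g h

lemma rho_apply (g : L) (w : List (Fin d)) : rho H f e g w = act H f e w g := rfl

lemma rho_injective
    (hcore : ∀ K : Subgroup L, K.Normal → ∀ hK : K ≤ H, (∀ k, ∀ hk : k ∈ K, f ⟨k, hK hk⟩ ∈ K) →
      K = ⊥) : Function.Injective (rho H f e) := by
  rw [← MonoidHom.ker_eq_bot_iff]
  set x0 : Fin d := e.symm ((1 : L) : L ⧸ H) with hx0
  have hfix : ∀ k ∈ (rho H f e).ker, ∀ x w,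
      letter H e k x = x ∧ act H f e w (f (coc H e k x)) = w := by
    intro k hk x w
    have : rho H f e k (x :: w) = x :: w := by rw [MonoidHom.mem_ker.1 hk]; rfl
    simpa [rho_apply, act] using this
  have hle : (rho H f e).ker ≤ H := by
    intro k hk
    have h1 := (hfix k hk x0 []).1
    rw [letter, hx0, Equiv.apply_symm_apply, Equiv.apply_eq_iff_eq] at h1
    have h2 : ((k * 1 : L) : L ⧸ H) = ((1 : L) : L ⧸ H) := h1
    rw [eq_comm, QuotientGroup.eq] at h2
    simpa using h2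
  refine hcore _ inferInstance hle fun k hk => ?_
  set t : L := (e x0).out
  have hk' : t * k * t⁻¹ ∈ (rho H f e).ker := (MonoidHom.normal_ker _).conj_mem k hk t
  have hc : coc H e (t * k * t⁻¹) x0 = ⟨k, hle hk⟩ := by
    apply Subtype.ext
    simp only [coc, (hfix _ hk' x0 []).1]
    change t⁻¹ * (t * k * t⁻¹ * t) = k
    group
  rw [MonoidHom.mem_ker]
  ext1 w
  have := (hfix _ hk' x0 w).2
  rw [hc] at this
  exact this

lemma rho_trans (x y : Fin d) : ∃ g, rho H f e g [x] = [y] := by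
  obtain ⟨g, hg⟩ := MulAction.exists_smul_eq L (e x) (e y)
  exact ⟨g, by simp [rho_apply, act, letter, hg]⟩

theorem exists_action (hd : H.index = d) (hd0 : d ≠ 0)
    (hcore : ∀ K : Subgroup L, K.Normal → ∀ hK : K ≤ H, (∀ k, ∀ hk : k ∈ K, f ⟨k, hK hk⟩ ∈ K) →
      K = ⊥) :
    ∃ ρ : L →* Equiv.Perm (List (Fin d)),
      Function.Injective ρ ∧ (∀ g, ρ g [] = []) ∧
      (∀ g w x, ∃ y, ρ g (w ++ [x]) = ρ g w ++ [y]) ∧
      (∀ g x, ∃ y h, ∀ w, ρ g (x :: w) = y :: ρ h w) ∧
      (∀ x y : Fin d, ∃ g, ρ g [x] = [y]) := by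
  have : Finite (L ⧸ H) := Nat.finite_of_card_ne_zero (by rw [← Subgroup.index, hd]; exact hd0)
  let e : Fin d ≃ L ⧸ H := (Finite.equivFinOfCardEq (by rw [← Subgroup.index, hd])).symm
  exact ⟨rho H f e, rho_injective H f e hcore, fun _ => rfl,
    fun g w x => act_append H f e w g x, fun g x => ⟨_, _, fun _ => rfl⟩, rho_trans H f e⟩

end Action

theorem action_of_SS {p : ℕ} (hp : p ≠ 0) {G : Type} [Group G] [TopologicalSpace G]
    {L : Subgroup G} (h : SS p L) :
    ∃ ρ : L →* Equiv.Perm (List (Fin p)),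
      Function.Injective ρ ∧ (∀ g, ρ g [] = []) ∧
      (∀ g w x, ∃ y, ρ g (w ++ [x]) = ρ g w ++ [y]) ∧
      (∀ g x, ∃ y h, ∀ w, ρ g (x :: w) = y :: ρ h w) ∧
      (∀ x y : Fin p, ∃ g, ρ g [x] = [y]) := by
  obtain ⟨H, hHL, -, hidx, f, -, hfL, hcore⟩ := h
  let f' : H.subgroupOf L →* L :=
    { toFun := fun x => ⟨f ⟨x.1.1, x.2⟩, hfL _⟩
      map_one' := Subtype.ext (map_one f)
      map_mul' := fun x y => Subtype.ext (map_mul f ⟨x.1.1, x.2⟩ ⟨y.1.1, y.2⟩) }
  refine exists_action (H.subgroupOf L) f' hidx hp fun K hKn hK hinv => ?_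
  have hle : K.map L.subtype ≤ H := by
    rintro _ ⟨k, hk, rfl⟩; exact hK hk
  have := hcore (K.map L.subtype) hle
    (by
      rintro l hl _ ⟨k, hk, rfl⟩
      exact ⟨_, hKn.conj_mem k hk ⟨l, hl⟩, rfl⟩)
    (by
      rintro _ ⟨k, hk, rfl⟩
      exact ⟨_, hinv k hk, rfl⟩)
  rwa [Subgroup.map_eq_bot_iff_of_injective _ L.subtype_injective] at this

section Lie

variable {𝕜 : Type} [NontriviallyNormedField 𝕜] {E : Type} [NormedAddCommGroup E]
  [NormedSpace 𝕜 E] {G : Type} [Group G] [TopologicalSpace G] [ChartedSpace E G]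
  [LieGroup 𝓘(𝕜, E) ω G]

lemma hasMFDerivAt_pow (k : ℕ) :
    HasMFDerivAt 𝓘(𝕜, E) 𝓘(𝕜, E) (fun x : G => x ^ k) 1
      ((k : 𝕜) • ContinuousLinearMap.id 𝕜 E : E →L[𝕜] E) := by
  have hm : MDifferentiableAt (𝓘(𝕜, E).prod 𝓘(𝕜, E)) 𝓘(𝕜, E) (fun q : G × G => q.1 * q.2)
      ((1 : G), (1 : G)) :=
    ((contMDiff_mul 𝓘(𝕜, E) ω (G := G)).mdifferentiable (by simp)) _
  obtain ⟨D, hD⟩ : ∃ D : E × E →L[𝕜] E,
      HasMFDerivAt (𝓘(𝕜, E).prod 𝓘(𝕜, E)) 𝓘(𝕜, E) (fun q : G × G => q.1 * q.2)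
        ((1 : G), (1 : G)) D := ⟨_, hm.hasMFDerivAt⟩
  have hid : HasMFDerivAt 𝓘(𝕜, E) 𝓘(𝕜, E) (fun x : G => x) 1
      (ContinuousLinearMap.id 𝕜 E : E →L[𝕜] E) := hasMFDerivAt_id _
  have hc : HasMFDerivAt 𝓘(𝕜, E) 𝓘(𝕜, E) (fun _ : G => (1 : G)) 1 (0 : E →L[𝕜] E) :=
    hasMFDerivAt_const _ _
  have h1 : D.comp ((ContinuousLinearMap.id 𝕜 E).prod 0) = ContinuousLinearMap.id 𝕜 E := by
    have := HasMFDerivAt.comp (1 : G) (g := fun q : G × G => q.1 * q.2)
      (f := fun x : G => (x, (1 : G))) hD (hid.prodMk hc)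
    have e : ((fun q : G × G => q.1 * q.2) ∘ fun x : G => (x, (1 : G))) = fun x => x := by
      ext x; simp
    rw [e] at this
    exact hasMFDerivAt_unique this hid
  have h2 : D.comp ((0 : E →L[𝕜] E).prod (ContinuousLinearMap.id 𝕜 E)) =
      ContinuousLinearMap.id 𝕜 E := by
    have := HasMFDerivAt.comp (1 : G) (g := fun q : G × G => q.1 * q.2)
      (f := fun x : G => ((1 : G), x)) hD (hc.prodMk hid)
    have e : ((fun q : G × G => q.1 * q.2) ∘ fun x : G => ((1 : G), x)) = fun x => x := by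
      ext x; simp
    rw [e] at this
    exact hasMFDerivAt_unique this hid
  have hDa : ∀ u v : E, D (u, v) = u + v := by
    intro u v
    have a1 : D (u, 0) = u := by simpa using congrArg (fun T : E →L[𝕜] E => T u) h1
    have a2 : D (0, v) = v := by simpa using congrArg (fun T : E →L[𝕜] E => T v) h2
    have : ((u, v) : E × E) = (u, 0) + (0, v) := by simp
    rw [this, map_add, a1, a2]
  induction k with
  | zero =>
    have e : (fun x : G => x ^ 0) = fun _ => 1 := by ext x; simp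
    rw [e, Nat.cast_zero, zero_smul]
    exact hc
  | succ k ih =>
    have hD' : HasMFDerivAt (𝓘(𝕜, E).prod 𝓘(𝕜, E)) 𝓘(𝕜, E) (fun q : G × G => q.1 * q.2)
        ((fun x : G => (x ^ k, x)) 1) D := by
      have e : (fun x : G => (x ^ k, x)) 1 = ((1 : G), (1 : G)) := by simp
      rw [e]; exact hD
    have := HasMFDerivAt.comp (1 : G) (g := fun q : G × G => q.1 * q.2)
      (f := fun x : G => (x ^ k, x)) hD' (ih.prodMk hid)
    have e : ((fun q : G × G => q.1 * q.2) ∘ fun x : G => (x ^ k, x)) = fun x => x ^ (k + 1) := by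
      ext x; simp [pow_succ]
    rw [e] at this
    have e2 : D.comp (((k : 𝕜) • ContinuousLinearMap.id 𝕜 E).prod (ContinuousLinearMap.id 𝕜 E)) =
        ((k + 1 : ℕ) : 𝕜) • ContinuousLinearMap.id 𝕜 E := by
      ext u; simp [hDa, add_smul]
    rw [← e2]
    exact this

variable (E) in
include E in
/-- near the identity of a Lie group there is no element of order dividing `k` if `k` is not zero
in the ground field -/
theorem eventually_pow_ne_one (k : ℕ) (hk : (k : 𝕜) ≠ 0) :
    ∀ᶠ x in 𝓝 (1 : G), x ^ k = 1 → x = 1 := by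
  have h := (hasMFDerivAt_pow (𝕜 := 𝕜) (E := E) (G := G) k).2
  simp only [modelWithCornersSelf_coe, Set.range_id, writtenInExtChartAt,
    one_pow] at h
  set c := extChartAt 𝓘(𝕜, E) (1 : G) with hc
  have h' : HasFDerivAt (c ∘ (fun x : G => x ^ k) ∘ c.symm)
      ((k : 𝕜) • ContinuousLinearMap.id 𝕜 E : E →L[𝕜] E) (c 1) := hasFDerivWithinAt_univ.1 h
  have hne := h'.eventually_ne (c := c 1) ⟨‖(k : 𝕜)‖₊⁻¹,
    AddMonoidHomClass.antilipschitz_of_bound _ (fun z => by
      simp [norm_smul, ← mul_assoc, inv_mul_cancel₀ (norm_ne_zero_iff.2 hk)])⟩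
  rw [eventually_nhdsWithin_iff] at hne
  have hcont : ContinuousAt c 1 := continuousAt_extChartAt 1
  filter_upwards [hcont.eventually hne, extChartAt_source_mem_nhds (I := 𝓘(𝕜, E)) (1 : G)]
    with x hx hxs hxk
  by_contra hx1
  apply hx
  · intro hcx
    exact hx1 (c.injOn hxs (mem_extChartAt_source 1) hcx)
  · simp only [Function.comp]
    rw [c.left_inv hxs, hxk]

end Lie

open scoped PowerSeries.WithPiTopology in
theorem not_analytic {p : ℕ} [Fact p.Prime] :
    ¬ ∃ (n : ℕ) (_ : ChartedSpace (Fin n → ℚ_[p]) (SD p (S p))),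
      LieGroup 𝓘(ℚ_[p], Fin n → ℚ_[p]) ω (SD p (S p)) := by
  rintro ⟨n, _, _⟩
  have h := eventually_pow_ne_one (𝕜 := ℚ_[p]) (Fin n → ℚ_[p]) (G := SD p (S p)) p
    (Nat.cast_ne_zero.2 (Fact.out : p.Prime).ne_zero)
  have h1 : Tendsto (fun m : ℕ => (PowerSeries.X ^ m : S p)) atTop (𝓝 0) := by
    rw [PowerSeries.WithPiTopology.tendsto_iff_coeff_tendsto]
    intro j
    rw [map_zero]
    refine tendsto_const_nhds.congr' ?_
    filter_upwards [eventually_gt_atTop j] with m hm
    rw [PowerSeries.coeff_X_pow, if_neg hm.ne]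
  have h2 : Tendsto (fun m : ℕ => (SD.mk (PowerSeries.X ^ m) 0 : SD p (S p))) atTop (𝓝 1) :=
    ((SD.continuous_mk continuous_id (continuous_const (y := (0 : ℤ_[p])))).tendsto 0).comp h1
  obtain ⟨m, hm⟩ := (h2.eventually h).exists
  have h3 := hm (by
    rw [SD.mk_zero_pow, nsmul_eq_mul, CharP.cast_eq_zero, zero_mul]; rfl)
  have h4 : (PowerSeries.X ^ m : S p) = 0 := congrArg SD.v h3
  exact pow_ne_zero _ PowerSeries.X_ne_zero h4

open scoped PowerSeries.WithPiTopology in
theorem action_top {p : ℕ} [Fact p.Prime] (hp : p ≠ 0) :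
    ∃ ρ : SD p (S p) →* Equiv.Perm (List (Fin p)),
      Function.Injective ρ ∧ (∀ g, ρ g [] = []) ∧
      (∀ g w x, ∃ y, ρ g (w ++ [x]) = ρ g w ++ [y]) ∧
      (∀ g x, ∃ y h, ∀ w, ρ g (x :: w) = y :: ρ h w) ∧
      (∀ x y : Fin p, ∃ g, ρ g [x] = [y]) := by
  have hne : (⊤ : Subgroup (SD p (S p))) ≠ ⊥ := by
    intro h
    have : (SD.mk 0 1 : SD p (S p)) ∈ (⊥ : Subgroup (SD p (S p))) := h ▸ Subgroup.mem_top _
    have h2 : (1 : ℤ_[p]) = 0 := congrArg SD.a (Subgroup.mem_bot.1 this)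
    exact one_ne_zero h2
  obtain ⟨ρ, h1, h2, h3, h4, h5⟩ := action_of_SS hp (hereditary ⊤ hne fin_gen)
  refine ⟨ρ.comp (Subgroup.topEquiv (G := SD p (S p))).symm.toMonoidHom,
    fun a b hab => (Subgroup.topEquiv (G := SD p (S p))).symm.injective (h1 hab),
    fun g => h2 _, fun g w x => h3 _ w x, fun g x => ?_, fun x y => ?_⟩
  · obtain ⟨y, h, hh⟩ := h4 (Subgroup.topEquiv.symm g) x
    exact ⟨y, h.1, hh⟩
  · obtain ⟨g, hg⟩ := h5 x y
    exact ⟨g.1, hg⟩

end Pool.Agent.Lib.MP_2dbb30_al
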