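import Mathlib

-- part Pool.Agent.Lib.MP_2dbb30_al.Basic
section

/-!
The pro-`p` lamplighter group `F_p[[t]] ⋊ Z_p` and its relatives `V ⋊ Z_p`, where `a : Z_p`
acts on an `F_p[[t]]`-module `V` by the power series `(1 + t) ^ a`.
-/

set_option autoImplicit false

open PowerSeries Filter Topology
open scoped PowerSeries.WithPiTopology

namespace Pool.Agent.Lib.MP_2dbb30_al

variable {p : ℕ} [Fact p.Prime]

/-- the power series ring over the prime field -/
abbrev S (p : ℕ) : Type := PowerSeries (ZMod p)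

instance : CompactSpace (S p) :=
  inferInstanceAs (CompactSpace ((Unit →₀ ℕ) → ZMod p))

instance : TotallyDisconnectedSpace (S p) :=
  inferInstanceAs (TotallyDisconnectedSpace ((Unit →₀ ℕ) → ZMod p))

lemma cont_of_coeff {Y : Type} [TopologicalSpace Y] {f : Y → S p}
    (h : ∀ n, Continuous fun y => coeff n (f y)) : Continuous f := by
  rw [continuous_iff_continuousAt]
  intro y
  exact (PowerSeries.WithPiTopology.tendsto_iff_coeff_tendsto _ _ _ _).2
    fun n => (h n).continuousAt

lemma continuous_toZMod : Continuous (PadicInt.toZMod : ℤ_[p] → ZMod p) := by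
  refine continuous_of_continuousAt_zero (PadicInt.toZMod : ℤ_[p] →+* ZMod p) ?_
  rw [ContinuousAt, map_zero, nhds_discrete (ZMod p), tendsto_pure]
  filter_upwards [Metric.ball_mem_nhds (0 : ℤ_[p]) one_pos] with x hx
  rw [← RingHom.mem_ker, PadicInt.ker_toZMod, IsLocalRing.mem_maximalIdeal,
    PadicInt.mem_nonunits]
  simpa using hx

/-- the series `(1 + X) ^ a` for a `p`-adic integer `a` -/
noncomputable def chi (a : ℤ_[p]) : S p :=
  PowerSeries.map PadicInt.toZMod (binomialSeries ℤ_[p] a)

lemma chi_add (a b : ℤ_[p]) : chi (a + b) = chi a * chi b := by simp [chi]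

lemma chi_nat (n : ℕ) : chi (n : ℤ_[p]) = (1 + X) ^ n := by simp [chi]

lemma chi_zero : chi (0 : ℤ_[p]) = 1 := by simp [chi]

lemma chi_one : chi (1 : ℤ_[p]) = 1 + X := by simpa using chi_nat (p := p) 1

lemma constantCoeff_chi (a : ℤ_[p]) : constantCoeff (chi a) = 1 := by
  rw [← coeff_zero_eq_constantCoeff_apply]; simp [chi]

lemma continuous_chi : Continuous (chi : ℤ_[p] → S p) := by
  refine cont_of_coeff fun n => ?_
  simp only [chi, coeff_map, binomialSeries_coeff, smul_eq_mul, mul_one]
  exact continuous_toZMod.comp (PadicInt.continuous_choose n)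

instance : CharP (S p) p :=
  charP_of_injective_algebraMap (algebraMap (ZMod p) (S p)).injective p

lemma chi_pow_p (m : ℕ) : chi ((p : ℤ_[p]) ^ m) = 1 + X ^ (p ^ m) := by
  rw [← Nat.cast_pow, chi_nat, add_pow_char_pow, one_pow]

/-- a closed additive subgroup of the `p`-adic integers is an ideal -/
lemma closed_addSubgroup (W : AddSubgroup ℤ_[p]) (hW : IsClosed (W : Set ℤ_[p])) (hne : ∃ a ∈ W, a ≠ 0) :
    ∃ m : ℕ, ∀ a, a ∈ W ↔ (p : ℤ_[p]) ^ m ∣ a := by
  have hmul : ∀ c : ℤ_[p], ∀ a ∈ W, c * a ∈ W := by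
    intro c a ha
    refine PadicInt.denseRange_natCast.induction_on c
      (hW.preimage (continuous_id.mul continuous_const)) fun n => ?_
    rw [← nsmul_eq_mul]; exact W.nsmul_mem ha n
  let I : Ideal ℤ_[p] :=
    { carrier := W
      add_mem' := W.add_mem
      zero_mem' := W.zero_mem
      smul_mem' := fun c a ha => hmul c a ha }
  have hI : I ≠ ⊥ := by
    obtain ⟨a, ha, ha0⟩ := hne
    intro h
    have : a ∈ I := ha
    rw [h] at this
    exact ha0 this
  obtain ⟨m, hm⟩ := PadicInt.ideal_eq_span_pow_p hI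
  refine ⟨m, fun a => ?_⟩
  rw [← Ideal.mem_span_singleton, ← hm]; rfl

lemma chi_eq_one {a : ℤ_[p]} (h : chi a = 1) : a = 0 := by
  by_contra ha
  let W : AddSubgroup ℤ_[p] :=
    { carrier := {a | chi a = 1}
      add_mem' := fun {a b} ha hb => by
        simp only [Set.mem_ofPred_eq] at ha hb ⊢
        rw [chi_add, ha, hb, one_mul]
      zero_mem' := chi_zero
      neg_mem' := fun {a} ha => by
        simp only [Set.mem_ofPred_eq] at ha ⊢
        have := chi_add a (-a)
        rw [add_neg_cancel, chi_zero, ha, one_mul] at this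
        exact this.symm }
  obtain ⟨m, hm⟩ := closed_addSubgroup W (isClosed_eq continuous_chi continuous_const) ⟨a, h, ha⟩
  have h1 : chi ((p : ℤ_[p]) ^ m) = 1 := (hm _).2 dvd_rfl
  rw [chi_pow_p, add_eq_left] at h1
  exact pow_ne_zero _ X_ne_zero h1

/-- the series `((1 + X) ^ a - 1) / X` -/
noncomputable def qq (a : ℤ_[p]) : S p := mk fun n => coeff (n + 1) (chi a)

lemma X_mul_qq (a : ℤ_[p]) : X * qq a = chi a - 1 := by
  have := sub_const_eq_X_mul_shift (chi a)
  rw [constantCoeff_chi, map_one] at this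
  exact this.symm

lemma qq_add (a b : ℤ_[p]) : qq (a + b) = qq a + chi a * qq b := by
  apply mul_left_cancel₀ (X_ne_zero (R := ZMod p))
  rw [mul_add, mul_left_comm, X_mul_qq, X_mul_qq, X_mul_qq, chi_add]; ring

lemma qq_zero : qq (0 : ℤ_[p]) = 0 := by
  apply mul_left_cancel₀ (X_ne_zero (R := ZMod p))
  rw [X_mul_qq, chi_zero]; simp

lemma qq_one : qq (1 : ℤ_[p]) = 1 := by
  apply mul_left_cancel₀ (X_ne_zero (R := ZMod p))
  rw [X_mul_qq, chi_one]; simp

lemma continuous_qq : Continuous (qq : ℤ_[p] → S p) := by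
  refine cont_of_coeff fun n => ?_
  simp only [qq, coeff_mk]
  exact (PowerSeries.WithPiTopology.continuous_coeff _ _).comp continuous_chi

/-- the semidirect product `V ⋊ Z_p` -/
def SD (p : ℕ) [Fact p.Prime] (V : Type) : Type := V × ℤ_[p]

section SD

variable {V : Type} [AddCommGroup V] [Module (S p) V]

/-- constructor -/
def SD.mk (v : V) (a : ℤ_[p]) : SD p V := (v, a)
/-- module coordinate -/
def SD.v (g : SD p V) : V := Prod.fst g
/-- `p`-adic coordinate -/
def SD.a (g : SD p V) : ℤ_[p] := Prod.snd g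

omit [AddCommGroup V] [Module (S p) V] in
@[simp] lemma SD.mk_v (v : V) (a : ℤ_[p]) : (SD.mk v a).v = v := rfl
omit [AddCommGroup V] [Module (S p) V] in
@[simp] lemma SD.mk_a (v : V) (a : ℤ_[p]) : (SD.mk v a).a = a := rfl

omit [AddCommGroup V] [Module (S p) V] in
@[ext] lemma SD.ext {g h : SD p V} (h1 : g.v = h.v) (h2 : g.a = h.a) : g = h := Prod.ext h1 h2

noncomputable instance : Mul (SD p V) := ⟨fun g h => SD.mk (g.v + chi g.a • h.v) (g.a + h.a)⟩
noncomputable instance : One (SD p V) := ⟨SD.mk 0 0⟩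
noncomputable instance : Inv (SD p V) := ⟨fun g => SD.mk (-(chi (-g.a) • g.v)) (-g.a)⟩

@[simp] lemma SD.mul_v (g h : SD p V) : (g * h).v = g.v + chi g.a • h.v := rfl
@[simp] lemma SD.mul_a (g h : SD p V) : (g * h).a = g.a + h.a := rfl
omit [Module (S p) V] in
@[simp] lemma SD.one_v : (1 : SD p V).v = 0 := rfl
omit [Module (S p) V] in
@[simp] lemma SD.one_a : (1 : SD p V).a = 0 := rfl
@[simp] lemma SD.inv_v (g : SD p V) : (g⁻¹).v = -(chi (-g.a) • g.v) := rfl
@[simp] lemma SD.inv_a (g : SD p V) : (g⁻¹).a = -g.a := rfl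

noncomputable instance : Group (SD p V) :=
  Group.ofLeftAxioms
    (fun a b c => by ext <;> simp [chi_add, mul_smul, add_assoc])
    (fun a => by ext <;> simp [chi_zero])
    (fun a => by ext <;> simp)

lemma chi_smul_neg (a : ℤ_[p]) (v : V) : chi a • chi (-a) • v = v := by
  rw [smul_smul, ← chi_add, add_neg_cancel, chi_zero, one_smul]

lemma SD.conj (g : SD p V) (x : V) : g * SD.mk x 0 * g⁻¹ = SD.mk (chi g.a • x) 0 := by
  ext <;> simp [chi_smul_neg]

lemma SD.pow_a (g : SD p V) (n : ℕ) : (g ^ n).a = n * g.a := by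
  induction n with
  | zero => simp
  | succ n ih => rw [pow_succ, SD.mul_a, ih]; push_cast; ring

lemma SD.mk_zero_pow (x : V) (n : ℕ) : (SD.mk x 0 : SD p V) ^ n = SD.mk (n • x) 0 := by
  induction n with
  | zero => ext <;> simp
  | succ n ih => rw [pow_succ, ih]; ext <;> simp [chi_zero, succ_nsmul]

lemma SD.zero_mk_pow (a : ℤ_[p]) (n : ℕ) : (SD.mk 0 a : SD p V) ^ n = SD.mk 0 ((n : ℤ_[p]) * a) := by
  induction n with
  | zero => ext <;> simp
  | succ n ih => rw [pow_succ, ih]; ext <;> simp [add_mul]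

lemma SD.split (g : SD p V) : g = SD.mk g.v 0 * SD.mk 0 g.a := by
  ext <;> simp

variable [TopologicalSpace V]

noncomputable instance : TopologicalSpace (SD p V) :=
  inferInstanceAs (TopologicalSpace (V × ℤ_[p]))
instance [CompactSpace V] : CompactSpace (SD p V) := inferInstanceAs (CompactSpace (V × ℤ_[p]))
instance [T2Space V] : T2Space (SD p V) := inferInstanceAs (T2Space (V × ℤ_[p]))
instance [TotallyDisconnectedSpace V] : TotallyDisconnectedSpace (SD p V) :=
  inferInstanceAs (TotallyDisconnectedSpace (V × ℤ_[p]))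

omit [AddCommGroup V] [Module (S p) V] in
lemma SD.continuous_v : Continuous (SD.v : SD p V → V) := continuous_fst
omit [AddCommGroup V] [Module (S p) V] in
lemma SD.continuous_a : Continuous (SD.a : SD p V → ℤ_[p]) := continuous_snd
omit [AddCommGroup V] [Module (S p) V] in
lemma SD.continuous_mk {Y : Type} [TopologicalSpace Y] {f : Y → V} {g : Y → ℤ_[p]}
    (hf : Continuous f) (hg : Continuous g) : Continuous fun y => SD.mk (f y) (g y) :=
  hf.prodMk hg

variable [IsTopologicalAddGroup V] [ContinuousSMul (S p) V]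

instance : IsTopologicalGroup (SD p V) where
  continuous_mul := SD.continuous_mk
    ((SD.continuous_v.comp continuous_fst).add
      ((continuous_chi.comp (SD.continuous_a.comp continuous_fst)).smul
        (SD.continuous_v.comp continuous_snd)))
    ((SD.continuous_a.comp continuous_fst).add (SD.continuous_a.comp continuous_snd))
  continuous_inv := SD.continuous_mk
    ((continuous_chi.comp SD.continuous_a.neg).smul SD.continuous_v).neg SD.continuous_a.neg

omit [IsTopologicalAddGroup V] in
/-- a closed additive subgroup stable under `1 + X` is a submodule -/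
lemma smul_mem_of_closed (W : AddSubgroup V) (hW : IsClosed (W : Set V))
    (h : ∀ x ∈ W, (1 + X : S p) • x ∈ W) (s : S p) : ∀ x ∈ W, s • x ∈ W := by
  have hX : ∀ x ∈ W, (X : S p) • x ∈ W := by
    intro x hx
    have := W.sub_mem (h x hx) hx
    rwa [add_smul, one_smul, add_sub_cancel_left] at this
  have hXn : ∀ n : ℕ, ∀ x ∈ W, (X ^ n : S p) • x ∈ W := by
    intro n
    induction n with
    | zero => intro x hx; simpa using hx
    | succ n ih => intro x hx; rw [pow_succ', mul_smul]; exact hX _ (ih x hx)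
  have hC : ∀ c : ZMod p, ∀ x ∈ W, (C c : S p) • x ∈ W := by
    intro c x hx
    rw [← ZMod.natCast_zmod_val c, map_natCast, Nat.cast_smul_eq_nsmul]
    exact W.nsmul_mem hx _
  intro x hx
  refine (PowerSeries.WithPiTopology.denseRange_toPowerSeries (ZMod p)).induction_on s
    (hW.preimage (continuous_id.smul continuous_const)) fun f => ?_
  induction f using Polynomial.induction_on' with
  | add f g hf hg => rw [Polynomial.coe_add, add_smul]; exact W.add_mem hf hg
  | monomial n c =>
    rw [← Polynomial.C_mul_X_pow_eq_monomial, Polynomial.coe_mul, Polynomial.coe_pow,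
      Polynomial.coe_C, Polynomial.coe_X, mul_smul]
    exact hC _ _ (hXn n x hx)

/-- the module part of a subgroup -/
def modPart (L : Subgroup (SD p V)) : AddSubgroup V where
  carrier := {x | SD.mk x 0 ∈ L}
  add_mem' := fun {x y} hx hy => by
    have := L.mul_mem hx hy
    have e : (SD.mk x 0 * SD.mk y 0 : SD p V) = SD.mk (x + y) 0 := by ext <;> simp [chi_zero]
    rwa [e] at this
  zero_mem' := L.one_mem
  neg_mem' := fun {x} hx => by
    have := L.inv_mem hx
    have e : (SD.mk x 0 : SD p V)⁻¹ = SD.mk (-x) 0 := by ext <;> simp [chi_zero]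
    rwa [e] at this

omit [TopologicalSpace V] [IsTopologicalAddGroup V] [ContinuousSMul (S p) V] in
lemma mem_modPart {L : Subgroup (SD p V)} {x : V} : x ∈ modPart L ↔ SD.mk x 0 ∈ L := Iff.rfl

omit [IsTopologicalAddGroup V] [ContinuousSMul (S p) V] in
lemma isClosed_modPart {L : Subgroup (SD p V)} (hL : IsClosed (L : Set (SD p V))) :
    IsClosed (modPart L : Set V) :=
  hL.preimage (SD.continuous_mk continuous_id continuous_const)

omit [IsTopologicalAddGroup V] in
lemma smul_mem_modPart {L : Subgroup (SD p V)} (hL : IsClosed (L : Set (SD p V)))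
    {g : SD p V} (hg : g ∈ L) (hg1 : g.a = 1) (s : S p) :
    ∀ x ∈ modPart L, s • x ∈ modPart L := by
  refine smul_mem_of_closed _ (isClosed_modPart hL) (fun x hx => ?_) s
  have := L.mul_mem (L.mul_mem hg hx) (L.inv_mem hg)
  rwa [SD.conj, hg1, chi_one] at this

end SD

end Pool.Agent.Lib.MP_2dbb30_al
end

-- part Pool.Agent.Lib.MP_2dbb30_al.Model
section

/-!
Transfer of virtual endomorphisms along embeddings, and the virtual endomorphisms of the model
groups.
-/

set_option autoImplicit false

open PowerSeries Filter Topology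
open scoped PowerSeries.WithPiTopology

namespace Pool.Agent.Lib.MP_2dbb30_al

/-- `L` has a continuous virtual endomorphism with trivial core on a closed index `p` subgroup -/
def SS (p : ℕ) {G : Type} [Group G] [TopologicalSpace G] (L : Subgroup G) : Prop :=
  ∃ H : Subgroup G, H ≤ L ∧ IsClosed (H : Set G) ∧ (H.subgroupOf L).index = p ∧
    ∃ f : H →* G, Continuous f ∧ (∀ h : H, f h ∈ L) ∧
      ∀ K : Subgroup G, ∀ hKH : K ≤ H,
        (∀ l ∈ L, ∀ k ∈ K, l * k * l⁻¹ ∈ K) →
        (∀ k : G, ∀ hk : k ∈ K, f ⟨k, hKH hk⟩ ∈ K) → K = ⊥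

/-- intrinsic version, with the index `p` subgroup given as the image of a compact group -/
def Good (p : ℕ) (G' : Type) [Group G'] [TopologicalSpace G'] : Prop :=
  ∃ (G'' : Type) (_ : Group G'') (_ : TopologicalSpace G'') (_ : CompactSpace G'')
    (j f : G'' →* G'), Continuous j ∧ Function.Injective j ∧ j.range.index = p ∧ Continuous f ∧
      ∀ K : Subgroup G', K.Normal → K ≤ j.range → (∀ x, j x ∈ K → f x ∈ K) → K = ⊥

lemma transfer {p : ℕ} {G G' : Type} [Group G] [TopologicalSpace G] [T2Space G]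
    [Group G'] [TopologicalSpace G'] (h : Good p G') (Φ : G' →* G) (hΦ : Continuous Φ)
    (hinj : Function.Injective Φ) : SS p Φ.range := by
  obtain ⟨G'', _, _, _, j, f, hj, hjinj, hidx, hf, hcore⟩ := h
  have hc : Continuous (Φ.comp j) := hΦ.comp hj
  have hi : Function.Injective (Φ.comp j) := hinj.comp hjinj
  let e := MonoidHom.ofInjective hi
  have he : Continuous e := Continuous.subtype_mk hc _
  have hes : Continuous e.symm :=
    Continuous.continuous_symm_of_equiv_compact_to_t2 (f := e.toEquiv) he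
  refine ⟨(Φ.comp j).range, ?_, ?_, ?_, (Φ.comp f).comp e.symm.toMonoidHom, ?_, ?_, ?_⟩
  · rintro _ ⟨x, rfl⟩; exact ⟨j x, rfl⟩
  · rw [MonoidHom.coe_range]; exact (isCompact_range hc).isClosed
  · rw [MonoidHom.range_comp, MonoidHom.range_eq_map Φ]
    have := Subgroup.relIndex_map_map_of_injective j.range ⊤ hinj
    rw [Subgroup.relIndex_top_right, hidx] at this
    exact this
  · exact (hΦ.comp hf).comp hes
  · intro h; exact ⟨_, rfl⟩
  · intro K hKH hn hinv
    have hK' : K.comap Φ = ⊥ := by
      refine hcore _ ⟨fun x hx g => ?_⟩ (fun x hx => ?_) (fun x hx => ?_)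
      · have := hn (Φ g) ⟨g, rfl⟩ (Φ x) hx
        simpa [Subgroup.mem_comap] using this
      · obtain ⟨y, hy⟩ := hKH hx
        exact ⟨y, hinj hy⟩
      · have h1 := hinv (Φ (j x)) hx
        have h2 : e.symm ⟨Φ (j x), hKH hx⟩ = x := by
          rw [MulEquiv.symm_apply_eq]; rfl
        change Φ (f (e.symm ⟨Φ (j x), hKH hx⟩)) ∈ K at h1
        rw [h2] at h1
        exact h1
    rw [eq_bot_iff]
    intro k hk
    obtain ⟨y, rfl⟩ := hKH hk
    have : j y ∈ K.comap Φ := hk
    rw [hK', Subgroup.mem_bot] at this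
    rw [Subgroup.mem_bot, MonoidHom.comp_apply, this, map_one]

lemma index_of_ker {p : ℕ} {G : Type} [Group G] (H : Subgroup G)
    (φ : G →* Multiplicative (ZMod p)) (hs : Function.Surjective φ) (hk : H = φ.ker) :
    H.index = p := by
  rw [hk, Subgroup.index_ker, MonoidHom.range_eq_top.2 hs, Subgroup.card_top]
  exact Nat.card_zmod p

variable {p : ℕ} [Fact p.Prime]

/-- finite elementary abelian groups -/
lemma good_finite (k : ℕ) : Good p (Multiplicative (Fin (k + 1) → ZMod p)) := by
  let j : (Fin k → ZMod p) →+ (Fin (k + 1) → ZMod p) :=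
    { toFun := fun x => Fin.cons 0 x
      map_zero' := by ext i; refine Fin.cases ?_ (fun i => ?_) i <;> simp
      map_add' := fun x y => by ext i; refine Fin.cases ?_ (fun i => ?_) i <;> simp }
  let f : (Fin k → ZMod p) →+ (Fin (k + 1) → ZMod p) :=
    { toFun := fun x => Fin.snoc (α := fun _ => ZMod p) x 0
      map_zero' := by ext i; refine Fin.lastCases ?_ (fun i => ?_) i <;> simp
      map_add' := fun x y => by ext i; refine Fin.lastCases ?_ (fun i => ?_) i <;> simp }
  let φ : (Fin (k + 1) → ZMod p) →+ ZMod p := Pi.evalAddMonoidHom (fun _ => ZMod p) 0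
  refine ⟨Multiplicative (Fin k → ZMod p), inferInstance, inferInstance, inferInstance,
    AddMonoidHom.toMultiplicative j, AddMonoidHom.toMultiplicative f,
    continuous_of_discreteTopology, ?_, ?_, continuous_of_discreteTopology, ?_⟩
  · intro x y h
    exact Fin.cons_right_injective (α := fun _ => ZMod p) 0 h
  · refine index_of_ker _ (AddMonoidHom.toMultiplicative φ) (fun c => ⟨fun _ => c, rfl⟩) ?_
    ext x
    constructor
    · rintro ⟨y, rfl⟩; rfl
    · intro hx
      refine ⟨Multiplicative.ofAdd (Fin.tail (Multiplicative.toAdd x)), ?_⟩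
      have hx' : (Multiplicative.toAdd x) 0 = 0 := hx
      change Fin.cons 0 (Fin.tail (Multiplicative.toAdd x)) = Multiplicative.toAdd x
      rw [← hx', Fin.cons_self_tail]
  · intro K _ hK hinv
    have key : ∀ i : Fin (k + 1), ∀ x ∈ K, (Multiplicative.toAdd x) i = 0 := by
      intro i
      induction i using Fin.induction with
      | zero => intro x hx; obtain ⟨y, rfl⟩ := hK hx; rfl
      | succ i ih =>
        intro x hx
        obtain ⟨y, rfl⟩ := hK hx
        have := ih _ (hinv y hx)
        change Fin.snoc (α := fun _ => ZMod p) (Multiplicative.toAdd y) 0 i.castSucc = 0 at this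
        rw [Fin.snoc_castSucc] at this
        exact this
    rw [eq_bot_iff]
    intro x hx
    rw [Subgroup.mem_bot]
    exact funext fun i => key i x hx

/-- the model with trivial module is the group of `p`-adic integers -/
lemma good_zero : Good p (SD p (Fin 0 → S p)) := by
  let j : SD p (Fin 0 → S p) →* SD p (Fin 0 → S p) :=
    { toFun := fun g => SD.mk g.v (p * g.a)
      map_one' := SD.ext (Subsingleton.elim _ _) (by simp)
      map_mul' := fun x y => SD.ext (Subsingleton.elim _ _) (by simp [mul_add]) }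
  let φ : SD p (Fin 0 → S p) →* Multiplicative (ZMod p) :=
    { toFun := fun g => Multiplicative.ofAdd (PadicInt.toZMod g.a)
      map_one' := by simp
      map_mul' := fun x y => by simp [ofAdd_add] }
  have hp0 : (p : ℤ_[p]) ≠ 0 := Nat.cast_ne_zero.2 (Fact.out : p.Prime).ne_zero
  refine ⟨SD p (Fin 0 → S p), inferInstance, inferInstance, inferInstance, j, MonoidHom.id _,
    SD.continuous_mk SD.continuous_v (continuous_const.mul SD.continuous_a), ?_, ?_,
    continuous_id, ?_⟩
  · intro x y h
    have h1 : (p : ℤ_[p]) * x.a = p * y.a := congrArg SD.a h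
    exact SD.ext (Subsingleton.elim _ _) (mul_left_cancel₀ hp0 h1)
  · refine index_of_ker _ φ (fun c => ⟨SD.mk 0 ((Multiplicative.toAdd c).val : ℤ_[p]), ?_⟩) ?_
    · simp [φ]
    · ext x
      have : x ∈ φ.ker ↔ (p : ℤ_[p]) ∣ x.a := by
        rw [← Ideal.mem_span_singleton, ← PadicInt.maximalIdeal_eq_span_p, ← PadicInt.ker_toZMod,
          RingHom.mem_ker, MonoidHom.mem_ker]
        rfl
      rw [this]
      constructor
      · rintro ⟨y, rfl⟩; exact ⟨y.a, rfl⟩
      · rintro ⟨c, hc⟩
        exact ⟨SD.mk x.v c, SD.ext rfl hc.symm⟩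
  · intro K _ hK hinv
    have key : ∀ n : ℕ, ∀ x ∈ K, (p : ℤ_[p]) ^ n ∣ x.a := by
      intro n
      induction n with
      | zero => intro x _; simp
      | succ n ih =>
        intro x hx
        obtain ⟨y, rfl⟩ := hK hx
        rw [pow_succ']
        exact mul_dvd_mul_left _ (ih y (hinv y hx))
    rw [eq_bot_iff]
    intro x hx
    rw [Subgroup.mem_bot]
    refine SD.ext (Subsingleton.elim _ _) ?_
    rw [SD.one_a, ← PadicInt.ext_of_toZModPow]
    intro n
    rw [map_zero, ← RingHom.mem_ker, PadicInt.ker_toZModPow, Ideal.mem_span_singleton]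
    exact key n x hx

/-- the cyclic shift whose `r + 1` st power is multiplication by `X` -/
noncomputable def shift (r : ℕ) : (Fin (r + 1) → S p) →ₗ[S p] (Fin (r + 1) → S p) where
  toFun x := Fin.cons (X * x (Fin.last r)) (fun i => x i.castSucc)
  map_add' x y := by ext1 i; refine Fin.cases ?_ (fun i => ?_) i <;> simp [mul_add]
  map_smul' c x := by ext1 i; refine Fin.cases ?_ (fun i => ?_) i <;> simp [mul_left_comm]

lemma shift_zero (r : ℕ) (x : Fin (r + 1) → S p) : shift r x 0 = X * x (Fin.last r) := rfl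
lemma shift_succ (r : ℕ) (x : Fin (r + 1) → S p) (i : Fin r) :
    shift r x i.succ = x i.castSucc := rfl

lemma good_succ (r : ℕ) : Good p (SD p (Fin (r + 1) → S p)) := by
  let j : SD p (Fin (r + 1) → S p) →* SD p (Fin (r + 1) → S p) :=
    { toFun := fun g => SD.mk (shift r g.v) g.a
      map_one' := by ext1 <;> simp
      map_mul' := fun x y => by ext1 <;> simp }
  let φ : SD p (Fin (r + 1) → S p) →* Multiplicative (ZMod p) :=
    { toFun := fun g => Multiplicative.ofAdd (constantCoeff (g.v 0))
      map_one' := by simp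
      map_mul' := fun x y => by simp [ofAdd_add, constantCoeff_chi] }
  have hcont : Continuous (shift (p := p) r) := by
    refine continuous_pi fun i => ?_
    refine Fin.cases ?_ (fun i => ?_) i
    · simp only [shift_zero]; fun_prop
    · simp only [shift_succ]; fun_prop
  refine ⟨SD p (Fin (r + 1) → S p), inferInstance, inferInstance, inferInstance, j, MonoidHom.id _,
    SD.continuous_mk (hcont.comp SD.continuous_v) SD.continuous_a, ?_, ?_, continuous_id, ?_⟩
  · intro x y h
    have h1 : shift r x.v = shift r y.v := congrArg SD.v h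
    have h2 : (j x).a = (j y).a := congrArg SD.a h
    refine SD.ext (funext fun i => ?_) h2
    refine Fin.lastCases ?_ (fun i => ?_) i
    · have := congrFun h1 0
      rw [shift_zero, shift_zero] at this
      exact mul_left_cancel₀ X_ne_zero this
    · have := congrFun h1 i.succ
      rwa [shift_succ, shift_succ] at this
  · refine index_of_ker _ φ (fun c => ⟨SD.mk (fun _ => C (Multiplicative.toAdd c)) 0, ?_⟩) ?_
    · simp [φ]
    · ext x
      have : x ∈ φ.ker ↔ (X : S p) ∣ x.v 0 := by
        rw [X_dvd_iff, MonoidHom.mem_ker]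
        rfl
      rw [this]
      constructor
      · rintro ⟨y, rfl⟩; exact ⟨y.v (Fin.last r), rfl⟩
      · rintro ⟨c, hc⟩
        refine ⟨SD.mk (Fin.snoc (α := fun _ => S p) (fun i => x.v i.succ) c) x.a, SD.ext ?_ rfl⟩
        change shift r _ = _
        ext1 i
        refine Fin.cases ?_ (fun i => ?_) i
        · rw [shift_zero, hc]; simp
        · rw [shift_succ]; simp
  · intro K hKn hK hinv
    have step : ∀ n : ℕ, (∀ x ∈ K, coeff n (x.v 0) = 0) →
        ∀ i : Fin (r + 1), ∀ x ∈ K, coeff n (x.v i) = 0 := by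
      intro n h0 i
      induction i using Fin.induction with
      | zero => exact h0
      | succ i ih =>
        intro x hx
        obtain ⟨y, rfl⟩ := hK hx
        exact ih y (hinv y hx)
    have key : ∀ n : ℕ, ∀ i : Fin (r + 1), ∀ x ∈ K, coeff n (x.v i) = 0 := by
      intro n
      induction n with
      | zero =>
        refine step 0 fun x hx => ?_
        obtain ⟨y, rfl⟩ := hK hx
        exact coeff_zero_X_mul _
      | succ n ih =>
        refine step _ fun x hx => ?_
        obtain ⟨y, rfl⟩ := hK hx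
        exact (coeff_succ_X_mul _ _).trans (ih _ y (hinv y hx))
    have key2 : ∀ x ∈ K, x.v = 0 := fun x hx =>
      funext fun i => PowerSeries.ext fun n => key n i x hx
    rw [eq_bot_iff]
    intro x hx
    rw [Subgroup.mem_bot]
    refine SD.ext (key2 x hx) ?_
    have h1 := key2 _ (hKn.conj_mem x hx (SD.mk (fun _ => 1) 0))
    have h2 := congrFun h1 0
    simp [key2 x hx, chi_zero] at h2
    refine chi_eq_one ?_
    linear_combination -h2

lemma good_model (r : ℕ) : Good p (SD p (Fin r → S p)) := by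
  cases r with
  | zero => exact good_zero
  | succ r => exact good_succ r

end Pool.Agent.Lib.MP_2dbb30_al
end

-- part Pool.Agent.Lib.MP_2dbb30_al.Main
section

/-!
Structure of the finitely generated closed subgroups of the pro-`p` lamplighter group.
-/

set_option autoImplicit false

open PowerSeries Filter Topology
open scoped PowerSeries.WithPiTopology

namespace Pool.Agent.Lib.MP_2dbb30_al

variable {p : ℕ} [Fact p.Prime]

/-- a closed subgroup surjecting onto the `p`-adic integers is a model group -/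
lemma exists_param {n : ℕ} (L : Subgroup (SD p (Fin n → S p)))
    (hL : IsClosed (L : Set (SD p (Fin n → S p)))) {g : SD p (Fin n → S p)} (hg : g ∈ L)
    (hg1 : g.a = 1) :
    ∃ (r : ℕ) (Φ : SD p (Fin r → S p) →* SD p (Fin n → S p)),
      Continuous Φ ∧ Function.Injective Φ ∧ Φ.range = L := by
  let M : Submodule (S p) (Fin n → S p) :=
    { carrier := modPart L
      add_mem' := (modPart L).add_mem
      zero_mem' := (modPart L).zero_mem
      smul_mem' := fun s x hx => smul_mem_modPart hL hg hg1 s x hx }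
  obtain ⟨r, ⟨b⟩⟩ := Submodule.nonempty_basis_of_pid (Pi.basisFun (S p) (Fin n)) M
  let β : (Fin r → S p) →ₗ[S p] (Fin n → S p) := M.subtype ∘ₗ b.equivFun.symm.toLinearMap
  have hβ : ∀ x, β x = ∑ i, x i • (b i : Fin n → S p) := by
    intro x; simp [β, Module.Basis.equivFun_symm_apply]
  have hβc : Continuous β := by
    have : (β : (Fin r → S p) → (Fin n → S p)) = fun x => ∑ i, x i • (b i : Fin n → S p) :=
      funext hβ
    rw [this]; fun_prop
  have hβi : Function.Injective β := M.subtype_injective.comp b.equivFun.symm.injective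
  have hβM : ∀ x, SD.mk (β x) 0 ∈ L := fun x => (b.equivFun.symm x).2
  have hβs : ∀ y, SD.mk y 0 ∈ L → ∃ x, β x = y := fun y hy =>
    ⟨b.equivFun ⟨y, hy⟩, by simp [β]⟩
  have hc : ∀ a : ℤ_[p], SD.mk (qq a • g.v) a ∈ L := by
    intro a
    refine PadicInt.denseRange_natCast.induction_on a
      (hL.preimage (SD.continuous_mk (continuous_qq.smul continuous_const) continuous_id))
      fun m => ?_
    induction m with
    | zero =>
      have : SD.mk (qq ((0 : ℕ) : ℤ_[p]) • g.v) ((0 : ℕ) : ℤ_[p]) = 1 := by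
        ext1 <;> simp [qq_zero]
      rw [this]; exact L.one_mem
    | succ m ih =>
      have : SD.mk (qq ((m + 1 : ℕ) : ℤ_[p]) • g.v) ((m + 1 : ℕ) : ℤ_[p]) =
          SD.mk (qq (m : ℤ_[p]) • g.v) (m : ℤ_[p]) * g := by
        ext1 <;> simp [qq_add, qq_one, hg1, add_smul]
      rw [this]; exact L.mul_mem ih hg
  let Φ : SD p (Fin r → S p) →* SD p (Fin n → S p) :=
    { toFun := fun x => SD.mk (β x.v + qq x.a • g.v) x.a
      map_one' := by ext1 <;> simp [qq_zero]
      map_mul' := fun x y => by
        ext1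
        · simp only [SD.mul_v, SD.mul_a, SD.mk_v, SD.mk_a, map_add, map_smul, qq_add, add_smul,
            mul_smul, smul_add]
          abel
        · simp }
  have hΦ : ∀ x, Φ x = SD.mk (β x.v) 0 * SD.mk (qq x.a • g.v) x.a := by
    intro x; ext1 <;> simp [Φ, chi_zero]
  refine ⟨r, Φ, SD.continuous_mk ((hβc.comp SD.continuous_v).add
    ((continuous_qq.comp SD.continuous_a).smul continuous_const)) SD.continuous_a, ?_, ?_⟩
  · intro x y h
    have h3 : (Φ x).a = (Φ y).a := congrArg SD.a h
    have h2 : x.a = y.a := h3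
    have h1 : β x.v + qq x.a • g.v = β y.v + qq y.a • g.v := congrArg SD.v h
    rw [h2, add_left_inj] at h1
    exact SD.ext (hβi h1) h2
  · ext l
    constructor
    · rintro ⟨x, rfl⟩
      rw [hΦ]; exact L.mul_mem (hβM _) (hc _)
    · intro hl
      have h1 := L.mul_mem hl (L.inv_mem (hc l.a))
      have h2 : l * (SD.mk (qq l.a • g.v) l.a)⁻¹ = SD.mk (l.v - qq l.a • g.v) 0 := by
        ext1 <;> simp [chi_smul_neg, sub_eq_add_neg]
      rw [h2] at h1
      obtain ⟨x, hx⟩ := hβs _ h1
      refine ⟨SD.mk x l.a, ?_⟩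
      ext1 <;> simp [Φ, hx]

/-- interleaving of `e` power series -/
noncomputable def inter (e : ℕ) (he : 0 < e) : (Fin e → S p) →+ S p where
  toFun x := PowerSeries.mk fun n => coeff (n / e) (x ⟨n % e, Nat.mod_lt _ he⟩)
  map_zero' := by ext n; simp
  map_add' x y := by ext n; simp

lemma coeff_inter (e : ℕ) (he : 0 < e) (x : Fin e → S p) (n : ℕ) :
    coeff n (inter e he x) = coeff (n / e) (x ⟨n % e, Nat.mod_lt _ he⟩) :=
  coeff_mk n (fun n => coeff (n / e) (x ⟨n % e, Nat.mod_lt _ he⟩))

lemma continuous_inter (e : ℕ) (he : 0 < e) : Continuous (inter (p := p) e he) := by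
  refine cont_of_coeff fun n => ?_
  simp only [coeff_inter]
  exact (PowerSeries.WithPiTopology.continuous_coeff _ _).comp (continuous_apply _)

lemma inter_X (e : ℕ) (he : 0 < e) (x : Fin e → S p) :
    inter e he ((X : S p) • x) = X ^ e * inter e he x := by
  ext n
  rw [coeff_inter, coeff_X_pow_mul']
  split_ifs with h
  · obtain ⟨m, rfl⟩ := Nat.exists_eq_add_of_le' h
    rw [coeff_inter, Nat.add_sub_cancel, Nat.add_div_right _ he]
    simp only [Nat.add_mod_right, Pi.smul_apply, smul_eq_mul, coeff_succ_X_mul]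
  · rw [Nat.div_eq_of_lt (not_le.1 h)]
    simp

lemma inter_injective (e : ℕ) (he : 0 < e) : Function.Injective (inter (p := p) e he) := by
  intro x y h
  ext i n
  have := congrArg (coeff (i + e * n)) h
  rw [coeff_inter, coeff_inter] at this
  simpa [Nat.add_mul_div_left _ _ he, Nat.div_eq_of_lt i.2, Nat.mod_eq_of_lt i.2] using this

lemma inter_surjective (e : ℕ) (he : 0 < e) : Function.Surjective (inter (p := p) e he) := by
  intro y
  refine ⟨fun i => PowerSeries.mk fun q => coeff (i + e * q) y, ?_⟩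
  ext n
  rw [coeff_inter, coeff_mk, Nat.mod_add_div]

lemma inter_chi (m : ℕ) (he : 0 < p ^ m) (a : ℤ_[p]) (x : Fin (p ^ m) → S p) :
    inter (p ^ m) he (chi a • x) = chi ((p : ℤ_[p]) ^ m * a) * inter (p ^ m) he x := by
  refine PadicInt.denseRange_natCast.induction_on a
    (isClosed_eq ((continuous_inter _ _).comp (continuous_chi.smul continuous_const))
      ((continuous_chi.comp (continuous_const.mul continuous_id)).mul continuous_const))
    fun k => ?_
  induction k with
  | zero => simp [chi_zero]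
  | succ k ih =>
    push_cast
    rw [add_comm (k : ℤ_[p]) 1, chi_add, mul_smul, chi_one, add_smul, one_smul, map_add, inter_X,
      ih, mul_add, mul_one, chi_add, chi_pow_p]
    ring

/-- the embedding onto the open subgroup lying over `p ^ m Z_p` -/
noncomputable def emb (m : ℕ) (he : 0 < p ^ m) : SD p (Fin (p ^ m) → S p) →* SD p (S p) where
  toFun x := SD.mk (inter (p ^ m) he x.v) ((p : ℤ_[p]) ^ m * x.a)
  map_one' := by ext1 <;> simp
  map_mul' x y := by ext1 <;> simp [inter_chi, mul_add]

lemma ss_of_not_le (L : Subgroup (SD p (S p))) (hL : IsClosed (L : Set (SD p (S p))))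
    (h : ∃ l ∈ L, l.a ≠ 0) : SS p L := by
  let W : AddSubgroup ℤ_[p] :=
    { carrier := SD.a '' (L : Set (SD p (S p)))
      add_mem' := by
        rintro _ _ ⟨x, hx, rfl⟩ ⟨y, hy, rfl⟩
        exact ⟨x * y, L.mul_mem hx hy, rfl⟩
      zero_mem' := ⟨1, L.one_mem, rfl⟩
      neg_mem' := by
        rintro _ ⟨x, hx, rfl⟩
        exact ⟨x⁻¹, L.inv_mem hx, rfl⟩ }
  obtain ⟨m, hm⟩ := closed_addSubgroup W (hL.isCompact.image SD.continuous_a).isClosed
    (by obtain ⟨l, hl, hl0⟩ := h; exact ⟨l.a, ⟨l, hl, rfl⟩, hl0⟩)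
  have he : 0 < p ^ m := pow_pos (Fact.out : p.Prime).pos m
  have hp0 : (p : ℤ_[p]) ^ m ≠ 0 :=
    pow_ne_zero _ (Nat.cast_ne_zero.2 (Fact.out : p.Prime).ne_zero)
  have hec : Continuous (emb (p := p) m he) :=
    SD.continuous_mk ((continuous_inter _ _).comp SD.continuous_v)
      (continuous_const.mul SD.continuous_a)
  have hei : Function.Injective (emb (p := p) m he) := by
    intro x y hxy
    have h1 : inter (p ^ m) he x.v = inter (p ^ m) he y.v := congrArg SD.v hxy
    have h2 : (p : ℤ_[p]) ^ m * x.a = (p : ℤ_[p]) ^ m * y.a := congrArg SD.a hxy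
    exact SD.ext (inter_injective _ _ h1) (mul_left_cancel₀ hp0 h2)
  have hle : L ≤ (emb (p := p) m he).range := by
    intro l hl
    obtain ⟨c, hc⟩ := (hm l.a).1 ⟨l, hl, rfl⟩
    obtain ⟨x, hx⟩ := inter_surjective (p := p) _ he l.v
    exact ⟨SD.mk x c, SD.ext hx hc.symm⟩
  obtain ⟨g, hg, hg1⟩ := (hm _).2 dvd_rfl
  obtain ⟨g', rfl⟩ := hle hg
  have hg' : g'.a = 1 := by
    apply mul_left_cancel₀ hp0
    rw [mul_one]; exact hg1
  obtain ⟨r, Φ, hΦc, hΦi, hΦr⟩ :=
    exists_param (L.comap (emb m he)) (hL.preimage hec) (g := g') hg hg'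
  have := transfer (good_model r) ((emb m he).comp Φ) (hec.comp hΦc) (hei.comp hΦi)
  rwa [MonoidHom.range_comp, hΦr, Subgroup.map_comap_eq_self hle] at this

lemma finite_closure (T : Finset (SD p (S p))) (hT : ∀ t ∈ T, t.a = 0) :
    ((Subgroup.closure (T : Set (SD p (S p)))).topologicalClosure : Set (SD p (S p))).Finite := by
  let W : Submodule (ZMod p) (S p) := Submodule.span (ZMod p) (SD.v '' (T : Set (SD p (S p))))
  have hW : Module.Finite (ZMod p) W :=
    Module.Finite.span_of_finite _ (T.finite_toSet.image _)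
  have hWf : Finite W := Module.finite_of_finite (ZMod p)
  let U : Subgroup (SD p (S p)) :=
    { carrier := (fun v => SD.mk v 0) '' (W : Set (S p))
      mul_mem' := by
        rintro _ _ ⟨x, hx, rfl⟩ ⟨y, hy, rfl⟩
        exact ⟨x + y, W.add_mem hx hy, by ext1 <;> simp [chi_zero]⟩
      one_mem' := ⟨0, W.zero_mem, rfl⟩
      inv_mem' := by
        rintro _ ⟨x, hx, rfl⟩
        exact ⟨-x, W.neg_mem hx, by ext1 <;> simp [chi_zero]⟩ }
  have hU : (U : Set (SD p (S p))).Finite := (Set.toFinite (W : Set (S p))).image _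
  refine hU.subset (Subgroup.topologicalClosure_minimal _ ?_ hU.isClosed)
  rw [Subgroup.closure_le]
  intro t ht
  exact ⟨t.v, Submodule.subset_span ⟨t, ht, rfl⟩, SD.ext rfl (hT t ht).symm⟩

lemma ss_of_finite (L : Subgroup (SD p (S p))) (hL : (L : Set (SD p (S p))).Finite)
    (h0 : ∀ l ∈ L, l.a = 0) (hne : L ≠ ⊥) : SS p L := by
  let M : Submodule (ZMod p) (S p) := AddSubgroup.toZModSubmodule p (modPart L)
  have hMf : Finite M := by
    have : (M : Set (S p)) ⊆ SD.v '' (L : Set (SD p (S p))) := fun x hx => ⟨SD.mk x 0, hx, rfl⟩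
    exact (hL.image _).subset this
  have hM : Module.Finite (ZMod p) M := Module.Finite.of_finite
  have hnt : Nontrivial M := by
    rw [Submodule.nontrivial_iff_ne_bot]
    intro hM0
    apply hne
    rw [eq_bot_iff]
    intro l hl
    have h1 : l = SD.mk l.v 0 := SD.ext rfl (h0 l hl)
    have h2 : l.v ∈ M := by
      change SD.mk l.v 0 ∈ L
      rw [← h1]; exact hl
    rw [hM0, Submodule.mem_bot] at h2
    exact SD.ext h2 (h0 l hl)
  obtain ⟨k, hk⟩ := Nat.exists_eq_succ_of_ne_zero (Module.finrank_pos (R := ZMod p) (M := M)).ne'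
  let b := Module.finBasisOfFinrankEq (ZMod p) M hk
  let Φ : Multiplicative (Fin (k + 1) → ZMod p) →* SD p (S p) :=
    { toFun := fun x => SD.mk (b.equivFun.symm (Multiplicative.toAdd x) : S p) 0
      map_one' := by ext1 <;> simp
      map_mul' := fun x y => by
        ext1
        · simp only [toAdd_mul, map_add, SD.mk_v, SD.mul_v, SD.mk_a, chi_zero, one_smul]
          rfl
        · simp }
  have hr : Φ.range = L := by
    ext l
    constructor
    · rintro ⟨x, rfl⟩
      exact (b.equivFun.symm (Multiplicative.toAdd x)).2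
    · intro hl
      have h1 : l = SD.mk l.v 0 := SD.ext rfl (h0 l hl)
      have h2 : l.v ∈ M := by
        change SD.mk l.v 0 ∈ L
        rw [← h1]; exact hl
      refine ⟨Multiplicative.ofAdd (b.equivFun ⟨l.v, h2⟩), SD.ext ?_ (h0 l hl).symm⟩
      change (b.equivFun.symm (b.equivFun ⟨l.v, h2⟩) : S p) = l.v
      rw [LinearEquiv.symm_apply_apply]
  rw [← hr]
  refine transfer (good_finite k) Φ continuous_of_discreteTopology fun x y hxy => ?_
  have h1 : (b.equivFun.symm (Multiplicative.toAdd x) : S p) =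
      (b.equivFun.symm (Multiplicative.toAdd y) : S p) := congrArg SD.v hxy
  exact b.equivFun.symm.injective (Subtype.ext h1)

theorem hereditary (L : Subgroup (SD p (S p))) (hne : L ≠ ⊥)
    (hfg : ∃ T : Finset (SD p (S p)),
      (Subgroup.closure (T : Set (SD p (S p)))).topologicalClosure = L) : SS p L := by
  obtain ⟨T, rfl⟩ := hfg
  by_cases h : ∃ l ∈ (Subgroup.closure (T : Set (SD p (S p)))).topologicalClosure, l.a ≠ 0
  · exact ss_of_not_le _ (Subgroup.isClosed_topologicalClosure _) h
  · push Not at h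
    refine ss_of_finite _ (finite_closure T fun t ht => h t ?_) h hne
    exact Subgroup.le_topologicalClosure _ (Subgroup.subset_closure ht)

theorem pro_p (N : Subgroup (SD p (S p))) (hN : N.Normal) (ho : IsOpen (N : Set (SD p (S p)))) :
    ∃ k : ℕ, N.index = p ^ k := by
  have : Finite (SD p (S p) ⧸ N) := Subgroup.quotient_finite_of_isOpen N ho
  refine IsPGroup.iff_card.1 fun q => ?_
  obtain ⟨g, rfl⟩ := QuotientGroup.mk_surjective q
  have h1 : Tendsto (fun n : ℕ => (p : ℤ_[p]) ^ n * g.a) atTop (𝓝 0) := by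
    have := (tendsto_pow_atTop_nhds_zero_of_norm_lt_one
      (show ‖(p : ℤ_[p])‖ < 1 from (PadicInt.norm_lt_one_iff_dvd _).2 dvd_rfl)).mul_const g.a
    simpa using this
  have h2 : Tendsto (fun n : ℕ => (SD.mk 0 ((p : ℤ_[p]) ^ n * g.a) : SD p (S p))) atTop (𝓝 1) :=
    ((SD.continuous_mk (continuous_const (y := (0 : S p))) continuous_id).tendsto 0).comp h1
  obtain ⟨n, hn⟩ := (h2.eventually (ho.mem_nhds N.one_mem)).exists
  refine ⟨n + 1, ?_⟩
  have h3 : (g ^ p ^ n).a = (p : ℤ_[p]) ^ n * g.a := by rw [SD.pow_a]; simp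
  have h4 : ((g ^ p ^ n : SD p (S p)) : SD p (S p) ⧸ N) =
      ((SD.mk (g ^ p ^ n).v 0 : SD p (S p)) : SD p (S p) ⧸ N) := by
    conv_lhs => rw [SD.split (g ^ p ^ n), h3]
    rw [QuotientGroup.mk_mul, (QuotientGroup.eq_one_iff _).2 hn, mul_one]
  rw [pow_succ, pow_mul, ← QuotientGroup.mk_pow, h4, ← QuotientGroup.mk_pow, SD.mk_zero_pow,
    nsmul_eq_mul, CharP.cast_eq_zero, zero_mul]
  rfl

theorem fin_gen : ∃ T : Finset (SD p (S p)),
    (Subgroup.closure (T : Set (SD p (S p)))).topologicalClosure = ⊤ := by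
  classical
  refine ⟨{SD.mk 1 0, SD.mk 0 1}, ?_⟩
  set L := (Subgroup.closure (({SD.mk 1 0, SD.mk 0 1} : Finset (SD p (S p))) :
    Set (SD p (S p)))).topologicalClosure with hL
  have hc : IsClosed (L : Set (SD p (S p))) := Subgroup.isClosed_topologicalClosure _
  have h1 : SD.mk 1 0 ∈ L := Subgroup.le_topologicalClosure _ (Subgroup.subset_closure (by simp))
  have h2 : SD.mk 0 1 ∈ L := Subgroup.le_topologicalClosure _ (Subgroup.subset_closure (by simp))
  have h3 : ∀ v : S p, SD.mk v 0 ∈ L := by
    intro v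
    have := smul_mem_modPart hc h2 rfl v 1 h1
    rwa [smul_eq_mul, mul_one] at this
  have h4 : ∀ a : ℤ_[p], SD.mk 0 a ∈ L := by
    intro a
    refine PadicInt.denseRange_natCast.induction_on a
      (hc.preimage (SD.continuous_mk continuous_const continuous_id)) fun m => ?_
    have := L.pow_mem h2 m
    rwa [SD.zero_mk_pow, mul_one] at this
  rw [eq_top_iff]
  intro g _
  rw [SD.split g]
  exact L.mul_mem (h3 _) (h4 _)

theorem infinite_rank : ¬ ∃ r : ℕ, ∀ L : Subgroup (SD p (S p)), IsClosed (L : Set (SD p (S p))) →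
    ∃ T : Finset (SD p (S p)), T.card ≤ r ∧
      (Subgroup.closure (T : Set (SD p (S p)))).topologicalClosure = L := by
  rintro ⟨r, hr⟩
  let A : Subgroup (SD p (S p)) :=
    { carrier := {g | g.a = 0}
      mul_mem' := fun {x y} hx hy => by
        simp only [Set.mem_ofPred_eq] at hx hy ⊢
        simp [hx, hy]
      one_mem' := rfl
      inv_mem' := fun {x} hx => by
        simp only [Set.mem_ofPred_eq] at hx ⊢
        simp [hx] }
  obtain ⟨T, _, hT⟩ := hr A (isClosed_eq SD.continuous_a continuous_const)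
  have hfin := finite_closure T fun t ht => by
    have : t ∈ A := by
      rw [← hT]; exact Subgroup.le_topologicalClosure _ (Subgroup.subset_closure ht)
    exact this
  rw [hT] at hfin
  refine Set.infinite_of_injective_forall_mem (f := fun n : ℕ => (SD.mk (X ^ n) 0 : SD p (S p)))
    (fun m n hmn => ?_) (fun n => (rfl : (SD.mk (X ^ n) 0 : SD p (S p)).a = 0)) hfin
  have h1 : (X ^ m : S p) = X ^ n := congrArg SD.v hmn
  have h2 := congrArg (coeff m) h1
  rw [coeff_X_pow, coeff_X_pow, if_pos rfl] at h2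
  by_contra hne
  rw [if_neg hne] at h2
  exact one_ne_zero h2

end Pool.Agent.Lib.MP_2dbb30_al
end
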